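import Pool.Agent.Helper10.Diag

set_option autoImplicit false

namespace Pool.Agent.Results.MP_400a6b_co.OwnStatement

/-- `F` is algebraic over `ℚ(x)`: it satisfies a nontrivial polynomial equation
`c_0(x) + c_1(x) F + ... + c_D(x) F^D = 0` with polynomials `c_j`. -/
def Algebraic (F : PowerSeries ℚ) : Prop :=
  ∃ (D : ℕ) (c : ℕ → Polynomial ℚ), (∃ j ≤ D, c j ≠ 0) ∧
    ∑ j ∈ Finset.range (D + 1), (c j : PowerSeries ℚ) * F ^ j = 0

/-- the bivariate series `R` is rational: `R = P / Q` with polynomials `P, Q`, `Q(0,0) ≠ 0` -/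
def Rational (R : MvPowerSeries (Fin 2) ℚ) : Prop :=
  ∃ P Q : MvPolynomial (Fin 2) ℚ, MvPolynomial.eval (fun _ => 0) Q ≠ 0 ∧
    R * (Q : MvPowerSeries (Fin 2) ℚ) = (P : MvPowerSeries (Fin 2) ℚ)

/-- the coefficient `r_{i,j}` of `x^i y^j` in the bivariate series `R` -/
noncomputable def coeff2 (R : MvPowerSeries (Fin 2) ℚ) (i j : ℕ) : ℚ :=
  MvPowerSeries.coeff (Finsupp.single 0 i + Finsupp.single 1 j) R

/-- the diagonal `∑ r_{n,n} x^n` of a bivariate series -/
noncomputable def diag (R : MvPowerSeries (Fin 2) ℚ) : PowerSeries ℚ :=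
  PowerSeries.mk fun n => coeff2 R n n

/-- Every algebraic power series with nonnegative rational coefficients is the diagonal of a
rational bivariate series with nonnegative coefficients. -/
theorem result (F : PowerSeries ℚ) (hF : Algebraic F) (hpos : ∀ n, 0 ≤ PowerSeries.coeff n F) :
    ∃ R : MvPowerSeries (Fin 2) ℚ, Rational R ∧ (∀ i j, 0 ≤ coeff2 R i j) ∧ diag R = F := by
  obtain ⟨D, c, ⟨j0, hj0, hc⟩, hsum⟩ := hF
  have h : ∃ p : Polynomial (Polynomial ℚ), p ≠ 0 ∧ (Helper10.Diag.toPS p).eval F = 0 := by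
    refine ⟨∑ j ∈ Finset.range (D + 1), Polynomial.monomial j (c j), ?_, ?_⟩
    · intro h0
      apply hc
      have h1 := congrArg (fun q => Polynomial.coeff q j0) h0
      simp only [Polynomial.finsetSum_coeff, Polynomial.coeff_monomial,
        Polynomial.coeff_zero] at h1
      rw [Finset.sum_ite_eq' ] at h1
      simpa [Nat.lt_succ_of_le hj0] using h1
    · rw [Helper10.Diag.toPS, Polynomial.coe_mapRingHom, Polynomial.eval_map,
        Polynomial.eval₂_finsetSum]
      simp only [Polynomial.eval₂_monomial, Polynomial.coeToPowerSeries.ringHom_apply]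
      exact hsum
  obtain ⟨R, ⟨P, Q, hQ, hRQ⟩, hR, hd⟩ := Helper10.Diag.nonneg_diag F hpos h
  refine ⟨R, ⟨P, Q, ?_, hRQ⟩, fun i j => hR _, ?_⟩
  · have h0 : MvPolynomial.eval (fun _ => (0 : ℚ)) Q = MvPolynomial.constantCoeff Q :=
      by rw [MvPolynomial.eval_zero']
    rw [h0]
    exact hQ
  · ext n
    rw [diag, PowerSeries.coeff_mk]
    exact hd n

end Pool.Agent.Results.MP_400a6b_co.OwnStatement
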